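import Pool.Agent.H76.HC.CO6

/-! CO5 -/

set_option autoImplicit false

open Set Filter

namespace Pool.Agent.HC

theorem encard_image_Iio {f : ℕ → ℕ} {n : ℕ} (hf : InjOn f (Set.Iio n)) :
    (f '' Set.Iio n).encard = (n : ℕ∞) := by
  rw [hf.encard_image]
  have h2 : (Set.Iio n) = ((Finset.range n : Finset ℕ) : Set ℕ) := by
    ext m
    simp
  rw [h2, Set.encard_coe_eq_coe_finsetCard, Finset.card_range]

theorem pf_CO5 (L : Type) [Finite L] : T_CO5 L := by
  intro c hc s α A γ B x y hcfg hs hα hA hAα hγα
  let F : (ℕ → Bool) → Set ℕ := fun K =>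
    {v | (∃ i, v = x i) ∨ ∃ i m, m < min (s i) 1 ∧ v = y i m ∧ K i = true}
  have hy0 : ∀ i, 0 < s i := fun i => hs i
  refine small_code hc F (x 0) (meas_blocks (fun i => min (s i) 1) x y) ?_
    (fun K => Or.inl ⟨0, rfl⟩) (fun l => l = α) (fun j => (j : ℕ∞)) ?_
  · intro K
    refine Set.infinite_of_injective_forall_mem hcfg.xi fun i => ?_
    exact Or.inl ⟨i, rfl⟩
  · intro K j
    have hx : ∀ i, (nbS c (fun l => l = α) (F K) (x i)).Infinite := by
      intro i
      refine Set.infinite_of_injective_forall_mem (f := fun k : ℕ => x (i + 1 + k)) ?_ ?_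
      · intro k k' e
        have := hcfg.xi e
        omega
      · intro k
        exact ⟨Or.inl ⟨_, rfl⟩, fun e => by have := hcfg.xi e; omega,
          hcfg.xx i _ (by omega)⟩
    have hy : ∀ i, nbS c (fun l => l = α) (F K) (y i 0) = x '' Set.Iio i := by
      intro i
      ext w
      constructor
      · rintro ⟨hw | ⟨k, m, hm, rfl, hK⟩, h2, h3⟩
        · obtain ⟨k, rfl⟩ := hw
          rcases lt_trichotomy i k with h | h | h
          · exact absurd ((hcfg.bx i k 0 h (hy0 i)).symm.trans (h3 : _ = α)) hAα
          · subst h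
            exfalso
            have h4 := (hcfg.gg' (hy0 i)).symm.trans (h3 : _ = α)
            apply hγα
            rw [hα, ← h4, Prod.swap_swap]
          · exact ⟨k, h, rfl⟩
        · exfalso
          have hm0 : m = 0 := by omega
          subst hm0
          rcases lt_trichotomy i k with h | h | h
          · exact hAα ((hcfg.aa i k 0 0 h (hy0 i) (hy0 k)).symm.trans (h3 : _ = α))
          · exact h2 (by rw [h])
          · have h4 := (hcfg.aa' h (hy0 k) (hy0 i)).symm.trans (h3 : _ = α)
            rw [← hA] at h4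
            exact hAα h4
      · rintro ⟨k, hk, rfl⟩
        refine ⟨Or.inl ⟨k, rfl⟩, fun e => hcfg.xy k i 0 (hy0 i) e, ?_⟩
        have h4 := hcfg.ax' (show k < i from hk) (hy0 i)
        rw [← hα] at h4
        exact h4
    have hcard : ∀ i, (nbS c (fun l => l = α) (F K) (y i 0)).encard = (i : ℕ∞) := by
      intro i
      rw [hy i]
      exact encard_image_Iio hcfg.xi.injOn
    constructor
    · rintro ⟨v, hv | ⟨i, m, hm, rfl, hK⟩, h2⟩
      · obtain ⟨i, rfl⟩ := hv
        rw [(hx i).encard_eq] at h2
        exact absurd h2.symm (by simp)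
      · have hm0 : m = 0 := by omega
        subst hm0
        rw [hcard i] at h2
        have h3 : i = j := by exact_mod_cast h2
        rw [← h3]
        exact hK
    · intro hK
      exact ⟨y j 0, Or.inr ⟨j, 0, by have := hy0 j; omega, rfl, hK⟩, hcard j⟩

end Pool.Agent.HC
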