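import Pool.Agent.H41.HC.Basic

/-! CO5, CO6, CO7: codings by cardinals of neighbourhoods. -/

set_option autoImplicit false

open Set Filter

namespace Pool.Agent.HC

section
variable {L : Type} {c : ℕ → ℕ → L}

/-- neighbourhoods inside `S` -/
def nbS (c : ℕ → ℕ → L) (P : L × L → Prop) (S : Set ℕ) (v : ℕ) : Set ℕ :=
  {w | w ∈ S ∧ w ≠ v ∧ P (pr c v w)}

theorem nbS_image {S S' : Set ℕ} {g : ℕ → ℕ} (hb : BijOn g S S')
    (hp : ∀ x ∈ S, ∀ y ∈ S, pr c (g x) (g y) = pr c x y) (P : L × L → Prop) {v : ℕ}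
    (hv : v ∈ S) : nbS c P S' (g v) = g '' nbS c P S v := by
  ext w
  constructor
  · rintro ⟨h1, h2, h3⟩
    obtain ⟨u, hu, rfl⟩ := hb.surjOn h1
    refine ⟨u, ⟨hu, fun e => h2 (by rw [e]), ?_⟩, rfl⟩
    rwa [hp v hv u hu] at h3
  · rintro ⟨u, ⟨hu, h2, h3⟩, rfl⟩
    refine ⟨hb.mapsTo hu, fun e => h2 (hb.injOn hu hv e), ?_⟩
    rwa [hp v hv u hu]

theorem nbS_encard {S S' : Set ℕ} {g : ℕ → ℕ} (hb : BijOn g S S')
    (hp : ∀ x ∈ S, ∀ y ∈ S, pr c (g x) (g y) = pr c x y) (P : L × L → Prop) {v : ℕ}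
    (hv : v ∈ S) : (nbS c P S' (g v)).encard = (nbS c P S v).encard := by
  rw [nbS_image hb hp P hv]
  exact (hb.injOn.mono fun u hu => hu.1).encard_image

/-- the coding principle -/
theorem small_code (hc : Small c) (A : (ℕ → Bool) → Set ℕ) (z : ℕ)
    (hm : ∀ v, MeasurableSet {K | v ∈ A K}) (hi : ∀ K, (A K).Infinite) (hz : ∀ K, z ∈ A K)
    (P : L × L → Prop) (n : ℕ → ℕ∞)
    (h : ∀ K j, (∃ v ∈ A K, (nbS c P (A K) v).encard = n j) ↔ K j = true) : False := by
  obtain ⟨K, K', hne, g, hb, hp, -⟩ := hc A z hm hi hz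
  apply hne
  have key : ∀ j, K j = true ↔ K' j = true := by
    intro j
    rw [← h K j, ← h K' j]
    constructor
    · rintro ⟨v, hv, e⟩
      exact ⟨g v, hb.mapsTo hv, by rw [nbS_encard hb hp P hv, e]⟩
    · rintro ⟨w, hw, e⟩
      obtain ⟨v, hv, rfl⟩ := hb.surjOn hw
      exact ⟨v, hv, by rw [← nbS_encard hb hp P hv, e]⟩
  funext j
  exact Bool.eq_iff_iff.2 (key j)

theorem meas_blocks (s : ℕ → ℕ) (x : ℕ → ℕ) (y : ℕ → ℕ → ℕ) (v : ℕ) :
    MeasurableSet {K : ℕ → Bool | (∃ i, v = x i) ∨ ∃ i m, m < s i ∧ v = y i m ∧ K i = true} := by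
  have h1 : {K : ℕ → Bool | (∃ i, v = x i) ∨ ∃ i m, m < s i ∧ v = y i m ∧ K i = true} =
      {K : ℕ → Bool | ∃ i, v = x i} ∪
        ⋃ (i : ℕ), ⋃ (m : ℕ), ({K : ℕ → Bool | m < s i ∧ v = y i m} ∩
          (fun K : ℕ → Bool => K i) ⁻¹' {true}) := by
    ext K
    simp only [mem_ofPred_eq, mem_union, mem_iUnion, mem_inter_iff, mem_preimage,
      mem_singleton_iff]
    constructor
    · rintro (h | ⟨i, m, h, h', h''⟩)
      · exact Or.inl h
      · exact Or.inr ⟨i, m, ⟨h, h'⟩, h''⟩
    · rintro (h | ⟨i, m, ⟨h, h'⟩, h''⟩)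
      · exact Or.inl h
      · exact Or.inr ⟨i, m, h, h', h''⟩
  rw [h1]
  refine MeasurableSet.union (MeasurableSet.const _) ?_
  refine MeasurableSet.iUnion fun i => MeasurableSet.iUnion fun m => ?_
  exact (MeasurableSet.const _).inter (measurable_pi_apply i (measurableSet_singleton true))

end

section
variable {L : Type} {c : ℕ → ℕ → L} {s : ℕ → ℕ} {X α β A γ B : L × L} {x : ℕ → ℕ}
  {y : ℕ → ℕ → ℕ}

theorem Cfg.xx' (h : Cfg c s X α β A γ B x y) {i k : ℕ} (hik : i < k) :
    pr c (x k) (x i) = X.swap := by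
  rw [← h.xx i k hik]
  rfl

theorem Cfg.ax' (h : Cfg c s X α β A γ B x y) {i k m : ℕ} (hik : i < k) (hm : m < s k) :
    pr c (y k m) (x i) = α.swap := by
  rw [← h.ax i k m hik hm]
  rfl

theorem Cfg.bx' (h : Cfg c s X α β A γ B x y) {i k m : ℕ} (hik : i < k) (hm : m < s i) :
    pr c (x k) (y i m) = β.swap := by
  rw [← h.bx i k m hik hm]
  rfl

theorem Cfg.aa' (h : Cfg c s X α β A γ B x y) {i k m m' : ℕ} (hik : i < k) (hm : m < s i)
    (hm' : m' < s k) : pr c (y k m') (y i m) = A.swap := by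
  rw [← h.aa i k m m' hik hm hm']
  rfl

theorem Cfg.gg' (h : Cfg c s X α β A γ B x y) {i m : ℕ} (hm : m < s i) :
    pr c (y i m) (x i) = γ.swap := by
  rw [← h.gg i m hm]
  rfl

theorem Cfg.bb' (h : Cfg c s X α β A γ B x y) {i m m' : ℕ} (hmm : m < m') (hm' : m' < s i) :
    pr c (y i m') (y i m) = B.swap := by
  rw [← h.bb i m m' hmm hm']
  rfl

end

theorem pf_CO6 (L : Type) [Finite L] : T_CO6 L := by
  intro c hc s A γ x y hcfg hs hA
  by_contra hne
  let F : (ℕ → Bool) → Set ℕ := fun K =>
    {v | (∃ i, v = x i) ∨ ∃ i m, m < s i ∧ v = y i m ∧ K i = true}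
  refine small_code hc F (x 0) (meas_blocks s x y) ?_ (fun K => Or.inl ⟨0, rfl⟩)
    (fun l => l = γ) (fun j => ((j + 2 : ℕ) : ℕ∞)) ?_
  · intro K
    refine Set.infinite_of_injective_forall_mem hcfg.xi fun i => ?_
    exact Or.inl ⟨i, rfl⟩
  · intro K j
    -- neighbourhoods of `x i`
    have hx : ∀ i, nbS c (fun l => l = γ) (F K) (x i) =
        if K i = true then (fun m => y i m) '' Set.Iio (s i) else ∅ := by
      intro i
      ext w
      constructor
      · rintro ⟨hw | ⟨k, m, hm, rfl, hK⟩, h2, h3⟩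
        · obtain ⟨k, rfl⟩ := hw
          exfalso
          rcases lt_trichotomy i k with h | h | h
          · exact hne ((h3 : _ = γ).symm.trans (hcfg.xx i k h))
          · exact h2 (by rw [h])
          · have := hcfg.xx' h
            rw [← hA] at this
            exact hne ((h3 : _ = γ).symm.trans this)
        · rcases lt_trichotomy i k with h | h | h
          · exact absurd ((h3 : _ = γ).symm.trans (hcfg.ax i k m h hm)) hne
          · subst h
            rw [if_pos hK]
            exact ⟨m, hm, rfl⟩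
          · have := hcfg.bx' h hm
            rw [← hA] at this
            exact absurd ((h3 : _ = γ).symm.trans this) hne
      · intro hw
        by_cases hK : K i = true
        · rw [if_pos hK] at hw
          obtain ⟨m, hm, rfl⟩ := hw
          exact ⟨Or.inr ⟨i, m, hm, rfl, hK⟩, fun e => hcfg.xy i i m hm e.symm, hcfg.gg i m hm⟩
        · rw [if_neg hK] at hw
          exact hw.elim
    have hy : ∀ i m, m < s i → (nbS c (fun l => l = γ) (F K) (y i m)).encard ≤ 1 := by
      intro i m hm
      have h1 : nbS c (fun l => l = γ) (F K) (y i m) ⊆ {x i} := by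
        rintro w ⟨hw | ⟨k, m', hm', rfl, hK⟩, h2, h3⟩
        · obtain ⟨k, rfl⟩ := hw
          rcases lt_trichotomy i k with h | h | h
          · exact absurd ((h3 : _ = γ).symm.trans (hcfg.bx i k m h hm)) hne
          · rw [h]
            exact rfl
          · have := hcfg.ax' h hm
            rw [← hA] at this
            exact absurd ((h3 : _ = γ).symm.trans this) hne
        · exfalso
          rcases lt_trichotomy i k with h | h | h
          · exact hne ((h3 : _ = γ).symm.trans (hcfg.aa i k m m' h hm hm'))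
          · subst h
            rcases lt_trichotomy m m' with h' | h' | h'
            · exact hne ((h3 : _ = γ).symm.trans (hcfg.bb i m m' h' hm'))
            · exact h2 (by rw [h'])
            · have := hcfg.bb' h' hm
              rw [← hA] at this
              exact hne ((h3 : _ = γ).symm.trans this)
          · have := hcfg.aa' h hm' hm
            rw [← hA] at this
            exact hne ((h3 : _ = γ).symm.trans this)
      exact (Set.encard_le_encard h1).trans (Set.encard_singleton _).le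
    have hcard : ∀ i, K i = true →
        (nbS c (fun l => l = γ) (F K) (x i)).encard = ((i + 2 : ℕ) : ℕ∞) := by
      intro i hK
      rw [hx i, if_pos hK]
      have h1 : InjOn (fun m => y i m) (Set.Iio (s i)) := by
        intro m hm m' hm' e
        exact (hcfg.yi i m i m' hm hm' e).2
      rw [h1.encard_image, ← hs i]
      have h2 : (Set.Iio (s i)) = ((Finset.range (s i) : Finset ℕ) : Set ℕ) := by
        ext m
        simp
      rw [h2, Set.encard_coe_eq_coe_finsetCard, Finset.card_range]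
    constructor
    · rintro ⟨v, hv | ⟨i, m, hm, rfl, hK⟩, h2⟩
      · obtain ⟨i, rfl⟩ := hv
        by_cases hK : K i = true
        · rw [hcard i hK] at h2
          have h3 : i + 2 = j + 2 := by exact_mod_cast h2
          have h4 : i = j := by omega
          rw [← h4]
          exact hK
        · rw [hx i, if_neg hK, Set.encard_empty] at h2
          have h3 : (0 : ℕ) = j + 2 := by exact_mod_cast h2
          omega
      · have h3 := hy i m hm
        rw [h2] at h3
        have h4 : j + 2 ≤ 1 := by exact_mod_cast h3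
        omega
    · intro hK
      exact ⟨x j, Or.inl ⟨j, rfl⟩, hcard j hK⟩

end Pool.Agent.HC
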