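import Pool.Agent.H76.HC.CO5

/-! CO7 -/

set_option autoImplicit false

open Set Filter

namespace Pool.Agent.HC

theorem pf_CO7 (L : Type) [Finite L] : T_CO7 L := by
  intro c hc s X α β A γ B x y hcfg hs
  by_contra hcon
  have hBA : B ≠ A := fun e => hcon (Or.inl e)
  have hBA' : B ≠ A.swap := fun e => hcon (Or.inr e)
  have hBA'' : B.swap ≠ A := fun e => hBA' (by rw [← e, Prod.swap_swap])
  have hBA''' : B.swap ≠ A.swap := fun e => hBA (by
    rw [← Prod.swap_swap B, e, Prod.swap_swap])
  -- the index set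
  let I : (ℕ → Bool) → ℕ → Prop := fun K i =>
    i = 0 ∨ (∃ j, i = 2 * j + 2 ∧ K j = true) ∨ ∃ j, i = 2 * j + 1 ∧ K j = false
  let F : (ℕ → Bool) → Set ℕ := fun K => {v | ∃ i m, m < s i ∧ v = y i m ∧ I K i}
  refine small_code hc F (y 0 0) ?_ ?_ (fun K => ⟨0, 0, by rw [hs]; omega, rfl, Or.inl rfl⟩)
    (fun l => l = B ∨ l = B.swap) (fun j => ((2 * j + 3 : ℕ) : ℕ∞)) ?_
  · intro v
    have hI : ∀ i, MeasurableSet {K : ℕ → Bool | I K i} := by
      intro i
      have h1 : {K : ℕ → Bool | I K i} = {K : ℕ → Bool | i = 0} ∪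
          ((⋃ j : ℕ, ({K : ℕ → Bool | i = 2 * j + 2} ∩ (fun K : ℕ → Bool => K j) ⁻¹' {true})) ∪
          ⋃ j : ℕ, ({K : ℕ → Bool | i = 2 * j + 1} ∩
            (fun K : ℕ → Bool => K j) ⁻¹' {false})) := by
        ext K
        simp only [I, mem_ofPred_eq, mem_union, mem_iUnion, mem_inter_iff, mem_preimage,
          mem_singleton_iff]
      rw [h1]
      refine (MeasurableSet.const _).union (MeasurableSet.union ?_ ?_)
      · exact MeasurableSet.iUnion fun j => (MeasurableSet.const _).inter
          (measurable_pi_apply j (measurableSet_singleton true))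
      · exact MeasurableSet.iUnion fun j => (MeasurableSet.const _).inter
          (measurable_pi_apply j (measurableSet_singleton false))
    have h1 : {K : ℕ → Bool | v ∈ F K} = ⋃ (i : ℕ), ⋃ (m : ℕ),
        ({K : ℕ → Bool | m < s i ∧ v = y i m} ∩ {K : ℕ → Bool | I K i}) := by
      ext K
      simp only [F, mem_ofPred_eq, mem_iUnion, mem_inter_iff, and_assoc]
    rw [h1]
    exact MeasurableSet.iUnion fun i => MeasurableSet.iUnion fun m =>
      (MeasurableSet.const _).inter (hI i)
  · intro K
    refine Set.infinite_of_injective_forall_mem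
      (f := fun j : ℕ => y (if K j = true then 2 * j + 2 else 2 * j + 1) 0) ?_ ?_
    · intro j j' e
      have h1 := (hcfg.yi _ 0 _ 0 (by rw [hs]; omega) (by rw [hs]; omega) e).1
      split_ifs at h1 <;> omega
    · intro j
      refine ⟨_, 0, by rw [hs]; omega, rfl, ?_⟩
      by_cases hK : K j = true
      · rw [if_pos hK]
        exact Or.inr (Or.inl ⟨j, rfl, hK⟩)
      · rw [if_neg hK]
        exact Or.inr (Or.inr ⟨j, rfl, by simpa using hK⟩)
  · intro K j
    have hcard : ∀ i m, m < s i → I K i →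
        (nbS c (fun l => l = B ∨ l = B.swap) (F K) (y i m)).encard = ((i + 1 : ℕ) : ℕ∞) := by
      intro i m hm hI
      have h1 : nbS c (fun l => l = B ∨ l = B.swap) (F K) (y i m) =
          ((y i) '' Set.Iio (s i)) \ {y i m} := by
        ext w
        constructor
        · rintro ⟨⟨k, m', hm', rfl, hK⟩, h2, h3⟩
          rcases lt_trichotomy i k with h | h | h
          · exfalso
            have h4 := hcfg.aa i k m m' h hm hm'
            rcases h3 with h3 | h3
            · exact hBA (h3.symm.trans h4)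
            · exact hBA'' (h3.symm.trans h4)
          · subst h
            exact ⟨⟨m', hm', rfl⟩, h2⟩
          · exfalso
            have h4 := hcfg.aa' h hm' hm
            rcases h3 with h3 | h3
            · exact hBA' (h3.symm.trans h4)
            · exact hBA''' (h3.symm.trans h4)
        · rintro ⟨⟨m', hm', rfl⟩, h2⟩
          refine ⟨⟨i, m', hm', rfl, hI⟩, h2, ?_⟩
          rcases lt_trichotomy m m' with h' | h' | h'
          · exact Or.inl (hcfg.bb i m m' h' hm')
          · exact absurd (by rw [h']; exact rfl) h2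
          · exact Or.inr (hcfg.bb' h' hm)
      rw [h1]
      have h2 : ((y i) '' Set.Iio (s i)).encard = ((s i : ℕ) : ℕ∞) :=
        encard_image_Iio fun m hm m' hm' e => (hcfg.yi i m i m' hm hm' e).2
      have h3 : y i m ∈ (y i) '' Set.Iio (s i) := ⟨m, hm, rfl⟩
      have h4 := Set.encard_sdiff_singleton_add_one h3
      rw [h2, hs i] at h4
      rw [hs i]
      have h5 : ((i + 2 : ℕ) : ℕ∞) = ((i + 1 : ℕ) : ℕ∞) + 1 := by push_cast; ring
      rw [h5] at h4
      exact (WithTop.add_right_inj (by simp : (1 : ℕ∞) ≠ ⊤)).1 h4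
    constructor
    · rintro ⟨v, ⟨i, m, hm, rfl, hI⟩, h2⟩
      rw [hcard i m hm hI] at h2
      have h3 : i + 1 = 2 * j + 3 := by exact_mod_cast h2
      rcases hI with h | ⟨j', h, hK⟩ | ⟨j', h, hK⟩
      · omega
      · have h4 : j' = j := by omega
        rw [← h4]
        exact hK
      · omega
    · intro hK
      have hI : I K (2 * j + 2) := Or.inr (Or.inl ⟨j, rfl, hK⟩)
      refine ⟨y (2 * j + 2) 0, ⟨2 * j + 2, 0, by rw [hs]; omega, rfl, hI⟩, ?_⟩
      exact hcard (2 * j + 2) 0 (by rw [hs]; omega) hI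

end Pool.Agent.HC
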